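import Pool.Agent.Helper61.GL.Cal
import Pool.Agent.Helper70.RK.E5

/-!
# Stationary walks of copies (NS, chapter W60 sect. 2)

`pathW μ G L` : weights of a path `w 0, .., w L` of copies; `w (i + 1)` is a copy of `w i` given
`G i`, conditionally independent of the past.
-/

set_option autoImplicit false

namespace Pool.Agent.Helper85.WF

open Finset Pool.Agent.Helper69.RK Pool.Agent.Helper61.GL Pool.Agent.Helper70.RK

section basic

variable {Ω γ : Type} [Fintype Ω]

/-- the kernel is reversible -/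
theorem cw_rev (μ : Ω → ℝ) (G : Ω → γ) (ω ω' : Ω) :
    μ ω * cw μ G ω ω' = μ ω' * cw μ G ω' ω := by
  unfold cw
  by_cases h : G ω' = G ω
  · rw [if_pos h, if_pos h.symm, e1_pr_atom μ G ω' ω h]
    ring
  · rw [if_neg h, if_neg (fun h' => h h'.symm)]
    ring

theorem push_push {Ω1 Ω2 Ω3 : Type} [Fintype Ω1] [Fintype Ω2] (f : Ω2 → Ω3) (g : Ω1 → Ω2)
    (μ : Ω1 → ℝ) : push f (push g μ) = push (fun w => f (g w)) μ := by
  classical
  funext ω
  have h := e5_sum g μ (fun ω2 => if f ω2 = ω then (1 : ℝ) else 0)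
  have h1 : push f (push g μ) ω = ∑ ω2, push g μ ω2 * (if f ω2 = ω then (1 : ℝ) else 0) := by
    refine Finset.sum_congr rfl fun x _ => ?_
    by_cases h2 : f x = ω
    · rw [if_pos h2, if_pos h2, mul_one]
    · rw [if_neg h2, if_neg h2, mul_zero]
  rw [h1, h]
  refine Finset.sum_congr rfl fun x _ => ?_
  by_cases h2 : f (g x) = ω
  · rw [if_pos h2, if_pos h2, mul_one]
  · rw [if_neg h2, if_neg h2, mul_zero]

theorem push_id (μ : Ω → ℝ) : push (fun ω : Ω => ω) μ = μ := by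
  classical
  funext ω
  unfold push
  rw [Finset.sum_eq_single ω]
  · rw [if_pos rfl]
  · intro b _ h
    rw [if_neg h]
  · intro h
    exact absurd (Finset.mem_univ ω) h

/-- weights of a path of `L + 1` copies -/
noncomputable def pathW (μ : Ω → ℝ) (G : ℕ → Ω → γ) (L : ℕ) (w : Fin (L + 1) → Ω) : ℝ :=
  μ (w 0) * ∏ i : Fin L, cw μ (G i) (w i.castSucc) (w i.succ)

theorem path_nn (μ : Ω → ℝ) (hμ : ∀ ω, 0 ≤ μ ω) (G : ℕ → Ω → γ) (L : ℕ) (w : Fin (L + 1) → Ω) :
    0 ≤ pathW μ G L w :=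
  mul_nonneg (hμ _) (Finset.prod_nonneg fun i _ => cw_nonneg μ (G i) hμ _ _)

theorem path_supp (μ : Ω → ℝ) (G : ℕ → Ω → γ) (L : ℕ) (w : Fin (L + 1) → Ω)
    (h : pathW μ G L w ≠ 0) :
    (∀ i, μ (w i) ≠ 0) ∧ ∀ i : Fin L, G i (w i.succ) = G i (w i.castSucc) := by
  unfold pathW at h
  have h1 := left_ne_zero_of_mul h
  have h2 := right_ne_zero_of_mul h
  rw [Finset.prod_ne_zero_iff] at h2
  refine ⟨fun i => ?_, fun i => (cw_ne_zero μ (G i) (h2 i (Finset.mem_univ i))).1⟩
  refine Fin.cases h1 (fun j => ?_) i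
  exact (cw_ne_zero μ (G j) (h2 j (Finset.mem_univ j))).2

theorem path_snoc (μ : Ω → ℝ) (G : ℕ → Ω → γ) (L : ℕ) (w : Fin (L + 1) → Ω) (x : Ω) :
    pathW μ G (L + 1) (Fin.snoc (α := fun _ => Ω) w x) =
      pathW μ G L w * cw μ (G L) (w (Fin.last L)) x := by
  unfold pathW
  rw [Fin.prod_univ_castSucc]
  have h0 : (Fin.snoc (α := fun _ => Ω) w x : Fin (L + 2) → Ω) 0 = w 0 := by
    have := Fin.snoc_castSucc (α := fun _ => Ω) x w (0 : Fin (L + 1))
    rwa [Fin.castSucc_zero] at this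
  have h1 : ∀ i : Fin L, cw μ (G (i.castSucc : Fin (L + 1)))
      ((Fin.snoc (α := fun _ => Ω) w x : Fin (L + 2) → Ω) i.castSucc.castSucc)
      ((Fin.snoc (α := fun _ => Ω) w x : Fin (L + 2) → Ω) i.castSucc.succ)
      = cw μ (G i) (w i.castSucc) (w i.succ) := by
    intro i
    rw [Fin.snoc_castSucc (α := fun _ => Ω) x w i.castSucc, Fin.succ_castSucc,
      Fin.snoc_castSucc (α := fun _ => Ω) x w i.succ]
    rfl
  rw [Finset.prod_congr rfl (fun i _ => h1 i), h0,
    Fin.snoc_castSucc (α := fun _ => Ω) x w (Fin.last L), Fin.succ_last,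
    Fin.snoc_last (α := fun _ => Ω) x w, Fin.val_last]
  ring

theorem path_cons (μ : Ω → ℝ) (G : ℕ → Ω → γ) (L : ℕ) (w : Fin (L + 1) → Ω) (x : Ω) :
    pathW μ G (L + 1) (Fin.cons (α := fun _ => Ω) x w) =
      pathW μ (fun i => G (i + 1)) L w * cw μ (G 0) (w 0) x := by
  unfold pathW
  rw [Fin.prod_univ_succ]
  have h1 : ∀ i : Fin L, cw μ (G (i.succ : Fin (L + 1)))
      ((Fin.cons (α := fun _ => Ω) x w : Fin (L + 2) → Ω) i.succ.castSucc)
      ((Fin.cons (α := fun _ => Ω) x w : Fin (L + 2) → Ω) i.succ.succ)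
      = cw μ (G (i + 1)) (w i.castSucc) (w i.succ) := by
    intro i
    rw [← Fin.succ_castSucc, Fin.cons_succ (α := fun _ => Ω) x w i.castSucc,
      Fin.cons_succ (α := fun _ => Ω) x w i.succ, Fin.val_succ]
  rw [Finset.prod_congr rfl (fun i _ => h1 i), Fin.cons_zero, Fin.castSucc_zero, Fin.cons_zero,
    Fin.cons_succ (α := fun _ => Ω) x w 0, Fin.val_zero, ← mul_assoc, cw_rev μ (G 0) x (w 0)]
  ring

theorem sum_snoc (L : ℕ) (F : (Fin (L + 1) → Ω) → ℝ) :
    ∑ w, F w = ∑ w : Fin L → Ω, ∑ x, F (Fin.snoc (α := fun _ => Ω) w x) := by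
  rw [← (Fin.snocEquiv (fun _ : Fin (L + 1) => Ω)).sum_comp, Fintype.sum_prod_type,
    Finset.sum_comm]
  rfl

theorem sum_cons (L : ℕ) (F : (Fin (L + 1) → Ω) → ℝ) :
    ∑ w, F w = ∑ w : Fin L → Ω, ∑ x, F (Fin.cons (α := fun _ => Ω) x w) := by
  rw [← (Fin.consEquiv (fun _ : Fin (L + 1) => Ω)).sum_comp, Fintype.sum_prod_type,
    Finset.sum_comm]
  rfl

theorem path_init (μ : Ω → ℝ) (hμ : ∀ ω, 0 ≤ μ ω) (G : ℕ → Ω → γ) (L : ℕ) :
    push (fun (w : Fin (L + 2) → Ω) (i : Fin (L + 1)) => w i.castSucc) (pathW μ G (L + 1))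
      = pathW μ G L := by
  classical
  funext w
  unfold push
  rw [sum_snoc]
  have h1 : ∀ w' : Fin (L + 1) → Ω, ∀ x : Ω,
      (fun i : Fin (L + 1) => (Fin.snoc (α := fun _ => Ω) w' x : Fin (L + 2) → Ω) i.castSucc)
        = w' := by
    intro w' x
    funext i
    exact Fin.snoc_castSucc (α := fun _ => Ω) x w' i
  simp only [h1]
  rw [Finset.sum_eq_single w]
  · simp only [if_true, path_snoc]
    rw [← Finset.mul_sum]
    by_cases h0 : pathW μ G L w = 0
    · rw [h0, zero_mul]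
    · rw [cw_sum μ (G L) hμ _ ((path_supp μ G L w h0).1 _), mul_one]
  · intro b _ hb
    exact Finset.sum_eq_zero fun x _ => if_neg hb
  · intro h
    exact absurd (Finset.mem_univ w) h

theorem path_tail (μ : Ω → ℝ) (hμ : ∀ ω, 0 ≤ μ ω) (G : ℕ → Ω → γ) (L : ℕ) :
    push (fun (w : Fin (L + 2) → Ω) (i : Fin (L + 1)) => w i.succ) (pathW μ G (L + 1))
      = pathW μ (fun i => G (i + 1)) L := by
  classical
  funext w
  unfold push
  rw [sum_cons]
  have h1 : ∀ w' : Fin (L + 1) → Ω, ∀ x : Ω,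
      (fun i : Fin (L + 1) => (Fin.cons (α := fun _ => Ω) x w' : Fin (L + 2) → Ω) i.succ)
        = w' := by
    intro w' x
    funext i
    exact Fin.cons_succ (α := fun _ => Ω) x w' i
  simp only [h1]
  rw [Finset.sum_eq_single w]
  · simp only [if_true, path_cons]
    rw [← Finset.mul_sum]
    by_cases h0 : pathW μ (fun i => G (i + 1)) L w = 0
    · rw [h0, zero_mul]
    · rw [cw_sum μ (G 0) hμ _ ((path_supp μ _ L w h0).1 _), mul_one]
  · intro b _ hb
    exact Finset.sum_eq_zero fun x _ => if_neg hb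
  · intro h
    exact absurd (Finset.mem_univ w) h

/-- the law of a segment of the path -/
theorem path_seg (μ : Ω → ℝ) (hμ : ∀ ω, 0 ≤ μ ω) (L : ℕ) : ∀ (G : ℕ → Ω → γ) (a k : ℕ)
    (h : a + k ≤ L),
    push (fun (w : Fin (L + 1) → Ω) (i : Fin (k + 1)) => w ⟨a + i, by omega⟩) (pathW μ G L)
      = pathW μ (fun i => G (a + i)) k := by
  induction L with
  | zero =>
    intro G a k h
    obtain rfl : a = 0 := by omega
    obtain rfl : k = 0 := by omega
    have h1 : (fun (w : Fin 1 → Ω) (i : Fin 1) => w ⟨0 + (i : ℕ), by omega⟩)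
        = fun w => w := by
      funext w i
      congr 1
      ext
      simp
    rw [h1, push_id]
    simp only [zero_add]
  | succ L ih =>
    intro G a k h
    rcases Nat.lt_or_ge (a + k) (L + 1) with h1 | h1
    · have h2 := ih G a k (by omega)
      rw [← path_init μ hμ G L, push_push] at h2
      rw [← h2]
      rfl
    · rcases Nat.eq_zero_or_pos a with h3 | h3
      · subst h3
        obtain rfl : k = L + 1 := by omega
        have h1 : (fun (w : Fin (L + 1 + 1) → Ω) (i : Fin (L + 1 + 1)) =>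
            w ⟨0 + (i : ℕ), by omega⟩) = fun w => w := by
          funext w i
          congr 1
          ext
          simp
        rw [h1, push_id]
        simp only [zero_add]
      · obtain ⟨a, rfl⟩ : ∃ a', a = a' + 1 := ⟨a - 1, by omega⟩
        have h2 := ih (fun i => G (i + 1)) a k (by omega)
        rw [← path_tail μ hμ G L, push_push] at h2
        have h4 : (fun (w : Fin (L + 1 + 1) → Ω) (i : Fin (k + 1)) =>
            w ⟨a + 1 + (i : ℕ), by omega⟩) =
            (fun (w : Fin (L + 1 + 1) → Ω) (i : Fin (k + 1)) =>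
              w (Fin.succ ⟨a + (i : ℕ), by omega⟩)) := by
          funext w i
          congr 1
          ext
          simp only [Fin.val_succ]
          omega
        have h5 : (fun i : ℕ => G (a + 1 + i)) = fun i => G (a + i + 1) := by
          funext i
          congr 1
          omega
        rw [h4, h5]
        exact h2

/-- every point of the path has the law `μ` -/
theorem path_coord (μ : Ω → ℝ) (hμ : ∀ ω, 0 ≤ μ ω) (G : ℕ → Ω → γ) (L : ℕ) (i : Fin (L + 1)) :
    push (fun w : Fin (L + 1) → Ω => w i) (pathW μ G L) = μ := by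
  classical
  have h := path_seg μ hμ L G i 0 (by omega)
  have h1 : (fun w : Fin (L + 1) → Ω => w i) = fun w =>
      (fun w' : Fin 1 → Ω => w' 0) ((fun (w : Fin (L + 1) → Ω) (j : Fin 1) =>
        w ⟨(i : ℕ) + j, by omega⟩) w) := by
    funext w
    show w i = w ⟨(i : ℕ) + ((0 : Fin 1) : ℕ), _⟩
    congr 1
  have h2 := push_push (fun w' : Fin 1 → Ω => w' 0) (fun (w : Fin (L + 1) → Ω) (j : Fin 1) =>
        w ⟨(i : ℕ) + j, by omega⟩) (pathW μ G L)
  rw [h1, ← h2, h]
  funext ω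
  unfold push
  rw [sum_cons]
  simp only [Fin.cons_zero]
  rw [Finset.sum_comm, Finset.sum_eq_single ω]
  · simp only [if_true]
    rw [Fintype.sum_unique]
    unfold pathW
    simp
  · intro b _ hb
    exact Finset.sum_eq_zero fun x _ => if_neg hb
  · intro h
    exact absurd (Finset.mem_univ ω) h

/-! ### the Markov property -/

/-- one more copy -/
noncomputable def extW {Ω1 : Type} (ν : Ω1 → ℝ) (p : Ω1 → Ω) (μ : Ω → ℝ) (G : Ω → γ)
    (w : Ω1 × Ω) : ℝ := ν w.1 * cw μ G (p w.1) w.2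

variable {Ω1 : Type} [Fintype Ω1]

omit [Fintype Ω1] in
theorem ext_nn (ν : Ω1 → ℝ) (hν : ∀ ω, 0 ≤ ν ω) (p : Ω1 → Ω) (μ : Ω → ℝ) (hμ : ∀ ω, 0 ≤ μ ω)
    (G : Ω → γ) (w : Ω1 × Ω) : 0 ≤ extW ν p μ G w :=
  mul_nonneg (hν _) (cw_nonneg μ G hμ _ _)

theorem push_ne {Ω2 : Type} (ν : Ω1 → ℝ) (hν : ∀ ω, 0 ≤ ν ω) (p : Ω1 → Ω2) (w : Ω1)
    (h : ν w ≠ 0) : push p ν (p w) ≠ 0 := by
  classical
  have h1 : 0 < ν w := lt_of_le_of_ne (hν w) (Ne.symm h)
  have h2 : ν w ≤ push p ν (p w) := by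
    unfold push
    have h3 := Finset.single_le_sum (f := fun w' => if p w' = p w then ν w' else 0)
      (fun w' _ => by
        show 0 ≤ if p w' = p w then ν w' else 0
        split_ifs
        · exact hν w'
        · exact le_rfl) (Finset.mem_univ w)
    simp only [if_true] at h3
    exact h3
  exact (lt_of_lt_of_le h1 h2).ne'

/-- the new copy depends on the past only through `G` -/
theorem ext_ch {α β : Type} (ν : Ω1 → ℝ) (hν : ∀ ω, 0 ≤ ν ω) (p : Ω1 → Ω) (μ : Ω → ℝ)
    (hμ : ∀ ω, 0 ≤ μ ω) (hp : push p ν = μ) (G : Ω → γ) (f : Ω → α) (h : Ω1 → β) :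
    CH (extW ν p μ G) (fun w => f w.2) (fun w => (h w.1, G (p w.1))) = CH μ f G := by
  classical
  have hne : ∀ w, ν w ≠ 0 → μ (p w) ≠ 0 := fun w hw => by
    rw [← hp]
    exact push_ne ν hν p w hw
  have a1 : ∀ w : Ω1 × Ω, extW ν p μ G w ≠ 0 →
      pr (extW ν p μ G) (fun w => (h w.1, G (p w.1))) w
        = pr ν (fun w1 => (h w1, G (p w1))) w.1 := by
    intro w _
    rw [e1_pr_eq, e1_pr_eq, Fintype.sum_prod_type]
    refine Finset.sum_congr rfl fun w1 _ => ?_
    by_cases h1 : (h w1, G (p w1)) = (h w.1, G (p w.1))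
    · simp only [if_pos h1]
      unfold extW
      simp only
      rw [← Finset.mul_sum]
      by_cases h0 : ν w1 = 0
      · rw [h0, zero_mul]
      · rw [cw_sum μ G hμ _ (hne w1 h0), mul_one]
    · simp only [if_neg h1]
      exact Finset.sum_const_zero
  have a2 : ∀ w : Ω1 × Ω, extW ν p μ G w ≠ 0 →
      pr (extW ν p μ G) (fun w => (f w.2, (h w.1, G (p w.1)))) w
        = pr ν (fun w1 => (h w1, G (p w1))) w.1 *
          (pr μ (fun ω => (f ω, G ω)) w.2 / pr μ G w.2) := by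
    intro w hw
    have hG : G w.2 = G (p w.1) := by
      unfold extW at hw
      exact (cw_ne_zero μ G (right_ne_zero_of_mul hw)).1
    rw [e1_pr_eq, e1_pr_eq ν, Fintype.sum_prod_type, Finset.sum_mul]
    refine Finset.sum_congr rfl fun w1 _ => ?_
    by_cases h1 : (h w1, G (p w1)) = (h w.1, G (p w.1))
    · rw [if_pos h1]
      have h2 : G (p w1) = G w.2 := (Prod.ext_iff.1 h1).2.trans hG.symm
      have h3 : ∀ x : Ω, (@ite ℝ ((f x, (h w1, G (p w1))) = (f w.2, (h w.1, G (p w.1))))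
          (Classical.propDecidable _) (extW ν p μ G (w1, x)) 0)
          = ν w1 * ((@ite ℝ ((f x, G x) = (f w.2, G w.2)) (Classical.propDecidable _) (μ x) 0)
            / pr μ G w.2) := by
        intro x
        have h4 : cw μ G (p w1) x = cw μ G w.2 x := cw_congr μ G h2 x
        by_cases h5 : f x = f w.2
        · rw [if_pos (Prod.ext h5 h1)]
          unfold extW
          simp only
          rw [h4]
          unfold cw
          by_cases h6 : G x = G w.2
          · rw [if_pos h6, if_pos (Prod.ext h5 h6)]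
          · rw [if_neg h6, if_neg (fun h7 => h6 (Prod.ext_iff.1 h7).2)]
        · rw [if_neg (fun h7 => h5 (Prod.ext_iff.1 h7).1),
            if_neg (fun h7 => h5 (Prod.ext_iff.1 h7).1), zero_div, mul_zero]
      refine (Finset.sum_congr rfl (fun x _ => h3 x)).trans ?_
      rw [← Finset.mul_sum, ← Finset.sum_div, ← e1_pr_eq μ (fun ω => (f ω, G ω)) w.2]
    · rw [if_neg h1, zero_mul]
      exact Finset.sum_eq_zero fun x _ => if_neg fun h7 => h1 (Prod.ext_iff.1 h7).2
  have a3 : ∀ x : Ω, ∑ w1, extW ν p μ G (w1, x) = μ x := by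
    intro x
    have h1 := e5_sum p ν (fun ω => cw μ G ω x)
    rw [hp] at h1
    unfold extW
    simp only
    rw [← h1, Finset.sum_congr rfl (fun ω _ => cw_rev μ G ω x), ← Finset.mul_sum]
    by_cases h0 : μ x = 0
    · rw [h0, zero_mul]
    · rw [cw_sum μ G hμ x h0, mul_one]
  have a4 : CH (extW ν p μ G) (fun w => f w.2) (fun w => (h w.1, G (p w.1)))
      = ∑ w : Ω1 × Ω, extW ν p μ G w * (Real.logb 2 (pr μ G w.2) -
        Real.logb 2 (pr μ (fun ω => (f ω, G ω)) w.2)) := by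
    unfold CH
    refine Finset.sum_congr rfl fun w _ => ?_
    by_cases h0 : extW ν p μ G w = 0
    · rw [h0, zero_mul, zero_mul]
    rw [a1 w h0, a2 w h0]
    have h1 : ν w.1 ≠ 0 := by
      unfold extW at h0
      exact left_ne_zero_of_mul h0
    have h2 : μ w.2 ≠ 0 := by
      unfold extW at h0
      exact (cw_ne_zero μ G (right_ne_zero_of_mul h0)).2
    have b1 := e1_pr_pos ν (fun w1 => (h w1, G (p w1))) hν w.1 h1
    have b2 := e1_pr_pos μ (fun ω => (f ω, G ω)) hμ w.2 h2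
    have b3 := e1_pr_pos μ G hμ w.2 h2
    rw [Real.logb_mul b1.ne' (div_pos b2 b3).ne', Real.logb_div b2.ne' b3.ne']
    ring
  rw [a4, Fintype.sum_prod_type, Finset.sum_comm]
  unfold CH
  refine Finset.sum_congr rfl fun x _ => ?_
  show ∑ w1, extW ν p μ G (w1, x) * (Real.logb 2 (pr μ G x) -
    Real.logb 2 (pr μ (fun ω => (f ω, G ω)) x)) = _
  rw [← Finset.sum_mul, a3 x]

theorem path_ext (μ : Ω → ℝ) (G : ℕ → Ω → γ) (L : ℕ) :
    push (fun p : (Fin (L + 1) → Ω) × Ω => (Fin.snoc (α := fun _ => Ω) p.1 p.2 :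
      Fin (L + 2) → Ω)) (extW (pathW μ G L) (fun w => w (Fin.last L)) μ (G L))
      = pathW μ G (L + 1) := by
  classical
  funext w
  unfold push
  have h1 : w = Fin.snoc (α := fun _ => Ω) (fun i => w i.castSucc) (w (Fin.last (L + 1))) := by
    funext i
    refine Fin.lastCases ?_ (fun j => ?_) i
    · rw [Fin.snoc_last]
    · rw [Fin.snoc_castSucc]
  rw [Finset.sum_eq_single ((fun i => w i.castSucc), w (Fin.last (L + 1)))]
  · rw [if_pos h1.symm]
    conv_rhs => rw [h1]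
    rw [path_snoc]
    rfl
  · intro b _ hb
    refine if_neg fun h2 => hb ?_
    refine Prod.ext ?_ ?_
    · funext i
      show b.1 i = w i.castSucc
      rw [← h2]
      exact (Fin.snoc_castSucc (α := fun _ => Ω) b.2 b.1 i).symm
    · show b.2 = w (Fin.last (L + 1))
      rw [← h2]
      exact (Fin.snoc_last (α := fun _ => Ω) b.2 b.1).symm
  · intro h
    exact absurd (Finset.mem_univ _) h

/-- the last point depends on the past only through `G L` -/
theorem path_markov {α β : Type} (μ : Ω → ℝ) (hμ : ∀ ω, 0 ≤ μ ω) (G : ℕ → Ω → γ) (L : ℕ)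
    (f : Ω → α) (h : (Fin (L + 1) → Ω) → β) :
    CH (pathW μ G (L + 1)) (fun w => f (w (Fin.last (L + 1))))
      (fun w => (h (fun i => w i.castSucc), G L (w (Fin.last L).castSucc))) = CH μ f (G L) := by
  have h1 := (st_E5.1 (Fin (L + 2) → Ω) ((Fin (L + 1) → Ω) × Ω) α (β × γ)
    (extW (pathW μ G L) (fun w => w (Fin.last L)) μ (G L))
    (fun p => (Fin.snoc (α := fun _ => Ω) p.1 p.2 : Fin (L + 2) → Ω))
    (fun w => f (w (Fin.last (L + 1))))
    (fun w => (h (fun i => w i.castSucc), G L (w (Fin.last L).castSucc)))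
    (ext_nn _ (path_nn μ hμ G L) _ μ hμ (G L))).2.2
  rw [path_ext] at h1
  rw [h1, ← ext_ch (pathW μ G L) (path_nn μ hμ G L) (fun w => w (Fin.last L)) μ hμ
    (path_coord μ hμ G L (Fin.last L)) (G L) f h]
  simp only [Fin.snoc_last, Fin.snoc_castSucc]

/-- entropy of the variables along the walk -/
theorem walk_ch {α β δ : Type} (μ : Ω → ℝ) (hμ : ∀ ω, 0 ≤ μ ω) (G : ℕ → Ω → γ) (q : Ω → α)
    (z : Ω → β) (ζ : Ω → δ) (L : ℕ) :
    CH μ z ζ + CH μ q (fun ω => (z ω, ζ ω)) + ∑ i ∈ range L, CH μ q (G i) ≤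
      CH (pathW μ G L) (fun w => (z (w 0), fun i : Fin (L + 1) => q (w i)))
        (fun w => ζ (w 0)) := by
  induction L with
  | zero =>
    rw [Finset.sum_range_zero, add_zero, ← ch_chain]
    have h1 := (st_E5.1 Ω (Fin 1 → Ω) (β × α) δ (pathW μ G 0) (fun w => w 0)
      (fun ω => (z ω, q ω)) ζ (path_nn μ hμ G 0)).2.2
    rw [path_coord μ hμ G 0 0] at h1
    rw [h1]
    apply ch_mono _ (path_nn μ hμ G 0)
    intro w w' _ _ e _
    have e1 := (Prod.ext_iff.1 e).1
    have e2 := congrFun (Prod.ext_iff.1 e).2 0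
    exact Prod.ext e1 e2
  | succ L ih =>
    rw [Finset.sum_range_succ]
    have h1 : CH (pathW μ G (L + 1)) (fun w => (z (w 0), fun i : Fin (L + 2) => q (w i)))
        (fun w => ζ (w 0)) = CH (pathW μ G (L + 1))
          (fun w => ((z (w 0), fun i : Fin (L + 1) => q (w i.castSucc)),
            q (w (Fin.last (L + 1))))) (fun w => ζ (w 0)) := by
      apply ch_congr_left
      intro w w' _ _ _
      constructor
      · intro e
        have e1 := (Prod.ext_iff.1 e).1
        have e2 := (Prod.ext_iff.1 e).2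
        exact Prod.ext (Prod.ext e1 (funext fun i => congrFun e2 i.castSucc))
          (congrFun e2 (Fin.last (L + 1)))
      · intro e
        have e1 := (Prod.ext_iff.1 (Prod.ext_iff.1 e).1).1
        have e2 := (Prod.ext_iff.1 (Prod.ext_iff.1 e).1).2
        refine Prod.ext e1 (funext fun i => ?_)
        refine Fin.lastCases ?_ (fun j => ?_) i
        · exact (Prod.ext_iff.1 e).2
        · exact congrFun e2 j
    have h2 : CH (pathW μ G (L + 1)) (fun w => (z (w 0), fun i : Fin (L + 1) => q (w i.castSucc)))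
        (fun w => ζ (w 0)) = CH (pathW μ G L) (fun w => (z (w 0), fun i : Fin (L + 1) => q (w i)))
        (fun w => ζ (w 0)) := by
      have h3 := (st_E5.1 (Fin (L + 1) → Ω) (Fin (L + 2) → Ω) (β × (Fin (L + 1) → α)) δ
        (pathW μ G (L + 1)) (fun w i => w i.castSucc)
        (fun w => (z (w 0), fun i : Fin (L + 1) => q (w i))) (fun w => ζ (w 0))
        (path_nn μ hμ G (L + 1))).2.2
      rw [path_init μ hμ G L] at h3
      rw [h3]
      rfl
    have h4 : CH μ q (G L) ≤ CH (pathW μ G (L + 1)) (fun w => q (w (Fin.last (L + 1))))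
        (fun w => ((z (w 0), fun i : Fin (L + 1) => q (w i.castSucc)), ζ (w 0))) := by
      rw [← path_markov μ hμ G L q (fun w => w)]
      apply ch_cond _ (path_nn μ hμ G (L + 1))
      intro w w' _ _ e
      have e1 : (fun i : Fin (L + 1) => w i.castSucc) = fun i => w' i.castSucc :=
        (Prod.ext_iff.1 e).1
      have e0 : w 0 = w' 0 := congrFun e1 0
      refine Prod.ext (Prod.ext ?_ (funext fun i => ?_)) ?_
      · show z (w 0) = z (w' 0)
        rw [e0]
      · show q (w i.castSucc) = q (w' i.castSucc)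
        rw [show w i.castSucc = w' i.castSucc from congrFun e1 i]
      · show ζ (w 0) = ζ (w' 0)
        rw [e0]
    rw [h1, ch_chain, h2]
    linarith

end basic

/-! ### the alternating walk -/

section walk

variable {Ω α δ 𝔾 : Type} [Fintype Ω] [AddCommGroup 𝔾]

open Classical in
/-- alternating conditions: `(zh, ζ)` for even `i`, `(z, ζ)` for odd `i` -/
noncomputable def altG (z zh : Ω → 𝔾) (ζ : Ω → δ) (i : ℕ) (ω : Ω) : 𝔾 × δ :=
  (if Even i then zh ω else z ω, ζ ω)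

omit [Fintype Ω] [AddCommGroup 𝔾] in
theorem altG_even (z zh : Ω → 𝔾) (ζ : Ω → δ) (i : ℕ) (h : Even i) :
    altG z zh ζ i = fun ω => (zh ω, ζ ω) := by
  funext ω
  unfold altG
  rw [if_pos h]

omit [Fintype Ω] [AddCommGroup 𝔾] in
theorem altG_odd (z zh : Ω → 𝔾) (ζ : Ω → δ) (i : ℕ) (h : ¬ Even i) :
    altG z zh ζ i = fun ω => (z ω, ζ ω) := by
  funext ω
  unfold altG
  rw [if_neg h]

omit [Fintype Ω] [AddCommGroup 𝔾] in
theorem altG_period (z zh : Ω → 𝔾) (ζ : Ω → δ) (j : ℕ) :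
    (fun i => altG z zh ζ (2 * j + i)) = altG z zh ζ := by
  funext i ω
  unfold altG
  have h : Even (2 * j + i) ↔ Even i := by
    rw [Nat.even_add]
    simp
  by_cases h1 : Even i
  · rw [if_pos h1, if_pos (h.2 h1)]
  · rw [if_neg h1, if_neg (fun h2 => h1 (h.1 h2))]

/-- weights of the walk with `L` steps -/
noncomputable def walkW (μ : Ω → ℝ) (z zh : Ω → 𝔾) (ζ : Ω → δ) (L : ℕ) :
    (Fin (L + 1) → Ω) → ℝ := pathW μ (altG z zh ζ) L

omit [AddCommGroup 𝔾] in
theorem walk_nn (μ : Ω → ℝ) (hμ : ∀ ω, 0 ≤ μ ω) (z zh : Ω → 𝔾) (ζ : Ω → δ) (L : ℕ)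
    (w : Fin (L + 1) → Ω) : 0 ≤ walkW μ z zh ζ L w := path_nn μ hμ _ L w

omit [AddCommGroup 𝔾] in
/-- every coordinate is measure preserving -/
theorem walk_coord (μ : Ω → ℝ) (hμ : ∀ ω, 0 ≤ μ ω) (z zh : Ω → 𝔾) (ζ : Ω → δ) (L : ℕ)
    (i : Fin (L + 1)) : push (fun w : Fin (L + 1) → Ω => w i) (walkW μ z zh ζ L) = μ :=
  path_coord μ hμ _ L i

omit [AddCommGroup 𝔾] in
theorem walk_mass (μ : Ω → ℝ) (hμ : ∀ ω, 0 ≤ μ ω) (z zh : Ω → 𝔾) (ζ : Ω → δ) (L : ℕ) :
    ∑ w, walkW μ z zh ζ L w = ∑ ω, μ ω := by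
  have h := e5_sum (fun w : Fin (L + 1) → Ω => w 0) (walkW μ z zh ζ L) (fun _ => (1 : ℝ))
  rw [walk_coord μ hμ z zh ζ L 0] at h
  simp only [mul_one] at h
  exact h.symm

omit [AddCommGroup 𝔾] in
theorem walk_pos (μ : Ω → ℝ) (z zh : Ω → 𝔾) (ζ : Ω → δ) (L : ℕ) (w : Fin (L + 1) → Ω)
    (h : walkW μ z zh ζ L w ≠ 0) (i : Fin (L + 1)) : μ (w i) ≠ 0 :=
  (path_supp μ _ L w h).1 i

omit [AddCommGroup 𝔾] in
/-- the base is constant along the walk -/
theorem walk_base (μ : Ω → ℝ) (z zh : Ω → 𝔾) (ζ : Ω → δ) (L : ℕ) (w : Fin (L + 1) → Ω)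
    (h : walkW μ z zh ζ L w ≠ 0) (i : Fin (L + 1)) : ζ (w i) = ζ (w 0) := by
  have h2 := (path_supp μ _ L w h).2
  refine Fin.induction (motive := fun i => ζ (w i) = ζ (w 0)) rfl (fun j ih => ?_) i
  have h3 := (Prod.ext_iff.1 (h2 j)).2
  unfold altG at h3
  exact h3.trans ih

/-- end of the walk -/
theorem walk_end (μ : Ω → ℝ) (z zh : Ω → 𝔾) (ζ : Ω → δ) (q : Ω → α) (X : δ → α → 𝔾)
    (hX : ∀ ω, μ ω ≠ 0 → zh ω = z ω + X (ζ ω) (q ω)) (L : ℕ) (w : Fin (L + 1) → Ω)
    (h : walkW μ z zh ζ L w ≠ 0) (j : ℕ) (hj : 2 * j ≤ L) :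
    z (w ⟨2 * j, by omega⟩) = z (w 0) +
      ∑ i : Fin (2 * j), (-1 : ℤ) ^ (i : ℕ) • X (ζ (w 0)) (q (w ⟨i, by omega⟩)) := by
  have h2 := (path_supp μ _ L w h).2
  induction j with
  | zero =>
    have h3 : ∑ i : Fin (2 * 0), (-1 : ℤ) ^ (i : ℕ) • X (ζ (w 0)) (q (w ⟨i, by omega⟩)) = 0 :=
      Finset.sum_eq_zero fun i _ => absurd i.2 (by omega)
    rw [h3, add_zero]
    rfl
  | succ j ih =>
    have h4 := ih (by omega)
    have h5 : ∑ i : Fin (2 * (j + 1)), (-1 : ℤ) ^ (i : ℕ) • X (ζ (w 0)) (q (w ⟨i, by omega⟩))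
        = (∑ i : Fin (2 * j), (-1 : ℤ) ^ (i : ℕ) • X (ζ (w 0)) (q (w ⟨i, by omega⟩)))
          + X (ζ (w 0)) (q (w ⟨2 * j, by omega⟩)) - X (ζ (w 0)) (q (w ⟨2 * j + 1, by omega⟩)) := by
      have h6 := Fin.sum_univ_castSucc (n := 2 * j + 1)
        (fun i : Fin (2 * j + 1 + 1) => (-1 : ℤ) ^ (i : ℕ) • X (ζ (w 0)) (q (w ⟨i, by omega⟩)))
      have h7 := Fin.sum_univ_castSucc (n := 2 * j)
        (fun i : Fin (2 * j + 1) => (-1 : ℤ) ^ (i : ℕ) • X (ζ (w 0)) (q (w ⟨i, by omega⟩)))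
      simp only [Fin.val_castSucc, Fin.val_last] at h6 h7
      rw [show (-1 : ℤ) ^ (2 * j + 1) = -1 from by rw [pow_succ, pow_mul]; simp] at h6
      rw [show (-1 : ℤ) ^ (2 * j) = 1 from by rw [pow_mul]; simp] at h7
      rw [h7] at h6
      rw [neg_smul, one_smul, one_smul, ← sub_eq_add_neg] at h6
      exact h6
    have e1 := h2 ⟨2 * j, by omega⟩
    have e2 := h2 ⟨2 * j + 1, by omega⟩
    have p1 : Even ((⟨2 * j, by omega⟩ : Fin L) : ℕ) := ⟨j, by simp only []; omega⟩
    have p2 : ¬ Even ((⟨2 * j + 1, by omega⟩ : Fin L) : ℕ) := by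
      simp only [Nat.not_even_iff_odd]
      exact ⟨j, rfl⟩
    rw [altG_even z zh ζ _ p1] at e1
    rw [altG_odd z zh ζ _ p2] at e2
    have f1 : zh (w ⟨2 * j + 1, by omega⟩) = zh (w ⟨2 * j, by omega⟩) := (Prod.ext_iff.1 e1).1
    have f2 : z (w ⟨2 * (j + 1), by omega⟩) = z (w ⟨2 * j + 1, by omega⟩) :=
      (Prod.ext_iff.1 e2).1
    have g1 := hX _ (walk_pos μ z zh ζ L w h ⟨2 * j, by omega⟩)
    have g2 := hX _ (walk_pos μ z zh ζ L w h ⟨2 * j + 1, by omega⟩)
    rw [walk_base μ z zh ζ L w h] at g1 g2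
    rw [f1, g1] at g2
    rw [h5, f2]
    have g3 : z (w ⟨2 * j + 1, by omega⟩) = z (w ⟨2 * j, by omega⟩)
        + X (ζ (w 0)) (q (w ⟨2 * j, by omega⟩)) - X (ζ (w 0)) (q (w ⟨2 * j + 1, by omega⟩)) := by
      rw [g2]
      abel
    rw [g3, h4]
    abel

omit [AddCommGroup 𝔾] in
/-- total correlation of the walk -/
theorem walk_tc (μ : Ω → ℝ) (hμ : ∀ ω, 0 ≤ μ ω) (z zh : Ω → 𝔾) (ζ : Ω → δ) (q : Ω → α)
    (I : ℝ) (h1 : CH μ q ζ - CH μ q (fun ω => (z ω, ζ ω)) ≤ I)
    (h2 : CH μ q ζ - CH μ q (fun ω => (zh ω, ζ ω)) ≤ I) (L : ℕ) :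
    (∑ i : Fin (L + 1), CH (walkW μ z zh ζ L) (fun w => q (w i)) (fun w => ζ (w 0)))
      - CH (walkW μ z zh ζ L) (fun w => fun i : Fin (L + 1) => q (w i))
        (fun w => (z (w 0), ζ (w 0))) ≤ (L + 1) * I := by
  have a1 := walk_ch μ hμ (altG z zh ζ) q z ζ L
  have a2 : CH (pathW μ (altG z zh ζ) L) (fun w => (z (w 0), fun i : Fin (L + 1) => q (w i)))
      (fun w => ζ (w 0)) = CH μ z ζ + CH (walkW μ z zh ζ L)
        (fun w => fun i : Fin (L + 1) => q (w i)) (fun w => (z (w 0), ζ (w 0))) := by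
    rw [ch_chain]
    have h := (st_E5.1 Ω (Fin (L + 1) → Ω) 𝔾 δ (walkW μ z zh ζ L) (fun w => w 0)
      z ζ (walk_nn μ hμ z zh ζ L)).2.2
    rw [walk_coord μ hμ z zh ζ L 0] at h
    rw [h]
    rfl
  have a3 : ∀ i : Fin (L + 1), CH (walkW μ z zh ζ L) (fun w => q (w i)) (fun w => ζ (w 0))
      = CH μ q ζ := by
    intro i
    have h := (st_E5.1 Ω (Fin (L + 1) → Ω) α δ (walkW μ z zh ζ L) (fun w => w i)
      q ζ (walk_nn μ hμ z zh ζ L)).2.2
    rw [walk_coord μ hμ z zh ζ L i] at h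
    rw [h]
    apply ch_congr_right
    intro w w' hw hw'
    rw [walk_base μ z zh ζ L w hw i, walk_base μ z zh ζ L w' hw' i]
  have a4 : ∀ i ∈ range L, CH μ q ζ - I ≤ CH μ q (altG z zh ζ i) := by
    intro i _
    by_cases h : Even i
    · rw [altG_even z zh ζ i h]
      linarith
    · rw [altG_odd z zh ζ i h]
      linarith
  have a5 := Finset.sum_le_sum a4
  rw [Finset.sum_const, card_range, nsmul_eq_mul] at a5
  rw [Finset.sum_congr rfl (fun i _ => a3 i), Finset.sum_const, card_univ, Fintype.card_fin,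
    nsmul_eq_mul]
  rw [a2] at a1
  push_cast
  linarith

end walk

/-! ### selection of a bad index -/

section sel

/-- all but `c` of the elements of `B` have `c` elements of `B` behind them -/
theorem sel_count (B : Finset ℕ) (c : ℝ) (hc : 0 ≤ c) :
    (B.card : ℝ) - c ≤ ((B.filter fun i => c ≤ ((B.filter fun j => i ≤ j).card : ℝ)).card : ℝ) := by
  classical
  set C := B.filter fun i => ¬ c ≤ ((B.filter fun j => i ≤ j).card : ℝ) with hC
  have h1 : (B.filter fun i => c ≤ ((B.filter fun j => i ≤ j).card : ℝ)).card + C.card = B.card :=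
    Finset.card_filter_add_card_filter_not (s := B) _
  have h1' : ((B.filter fun i => c ≤ ((B.filter fun j => i ≤ j).card : ℝ)).card : ℝ)
      + C.card = B.card := by exact_mod_cast h1
  rcases C.eq_empty_or_nonempty with h2 | h2
  · rw [h2, card_empty, Nat.cast_zero] at h1'
    linarith
  · have h3 := C.min'_mem h2
    have h4 : C ⊆ B.filter fun j => C.min' h2 ≤ j := by
      intro j hj
      rw [Finset.mem_filter]
      exact ⟨(Finset.mem_filter.1 hj).1, C.min'_le j hj⟩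
    have h5 : (C.card : ℝ) ≤ ((B.filter fun j => C.min' h2 ≤ j).card : ℝ) := by
      exact_mod_cast Finset.card_le_card h4
    have h6 := (Finset.mem_filter.1 h3).2
    push Not at h6
    linarith

variable {Ω α δ 𝔾 : Type} [Fintype Ω]

/-- indicator -/
noncomputable def ind (p : Prop) : ℝ := e1_ind p

theorem ind_pos {p : Prop} (h : p) : ind p = 1 := e1_ind_pos h

theorem ind_neg {p : Prop} (h : ¬ p) : ind p = 0 := e1_ind_neg h

theorem ind_mono {p p' : Prop} (h : p → p') : ind p ≤ ind p' := by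
  by_cases h1 : p
  · rw [ind_pos h1, ind_pos (h h1)]
  · rw [ind_neg h1]
    by_cases h2 : p'
    · rw [ind_pos h2]
      exact zero_le_one
    · rw [ind_neg h2]

open Classical in
theorem card_ind (S : Finset ℕ) (p : ℕ → Prop) :
    ((S.filter p).card : ℝ) = ∑ i ∈ S, ind (p i) := by
  rw [Finset.card_filter, Nat.cast_sum]
  refine Finset.sum_congr rfl fun i _ => ?_
  by_cases h : p i
  · rw [if_pos h, ind_pos h, Nat.cast_one]
  · rw [if_neg h, ind_neg h, Nat.cast_zero]

/-- point number `i` of the path (the first one if `i` is too large) -/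
def pt {L : ℕ} (w : Fin (L + 1) → Ω) (i : ℕ) : Ω := if h : i < L + 1 then w ⟨i, h⟩ else w 0

omit [Fintype Ω] in
theorem pt_eq {L : ℕ} (w : Fin (L + 1) → Ω) (i : ℕ) (h : i < L + 1) : pt w i = w ⟨i, h⟩ :=
  dif_pos h

open Classical in
/-- number of indices `i < K` such that the point `2 i` has the property `B` -/
noncomputable def cnt {L : ℕ} (B : Ω → Prop) (K : ℕ) (w : Fin (L + 1) → Ω) : ℕ :=
  ((range K).filter fun i => B (pt w (2 * i))).card

/-- the walk can be started at a bad index with many bad indices behind it -/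
theorem walk_select (μ : Ω → ℝ) (hμ : ∀ ω, 0 ≤ μ ω) (z zh : Ω → 𝔾) (ζ : Ω → δ) (K : ℕ)
    (hK : 0 < K) (B : Ω → Prop) (d : ℝ) (hd : 0 ≤ d)
    (hB : d * (∑ ω, μ ω) ≤ ∑ ω, μ ω * ind (B ω)) :
    d / 2 * (∑ ω, μ ω) ≤ ∑ w : Fin (2 * K + 1) → Ω, walkW μ z zh ζ (2 * K) w *
      ind (B (w 0) ∧ d / 2 * K ≤ (cnt B K w : ℝ)) := by
  classical
  set W := walkW μ z zh ζ (2 * K) with hW
  have hWn : ∀ w, 0 ≤ W w := walk_nn μ hμ z zh ζ (2 * K)
  set c : ℝ := d / 2 * K with hc
  have hK' : (0 : ℝ) < K := by exact_mod_cast hK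
  have hc0 : 0 ≤ c := by positivity
  have hM : ∑ w, W w = ∑ ω, μ ω := walk_mass μ hμ z zh ζ (2 * K)
  -- expectation of the number of bad indices
  have a1 : ∀ i ∈ range K, ∑ w, W w * ind (B (pt w (2 * i))) = ∑ ω, μ ω * ind (B ω) := by
    intro i hi
    have hi' := mem_range.1 hi
    have h := e5_sum (fun w : Fin (2 * K + 1) → Ω => w ⟨2 * i, by omega⟩) W
      (fun ω => ind (B ω))
    rw [hW, walk_coord μ hμ z zh ζ (2 * K) ⟨2 * i, by omega⟩] at h
    rw [h]
    refine Finset.sum_congr rfl fun w _ => ?_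
    rw [pt_eq w (2 * i) (by omega)]
  have a2 : ∑ w, W w * (cnt B K w : ℝ) = K * ∑ ω, μ ω * ind (B ω) := by
    unfold cnt
    simp only [card_ind, Finset.mul_sum]
    rw [Finset.sum_comm, Finset.sum_congr rfl a1, Finset.sum_const, card_range, nsmul_eq_mul]
    rw [Finset.mul_sum]
  -- the tail events
  set S : ℝ := ∑ w : Fin (2 * K + 1) → Ω, W w * ind (B (w 0) ∧ c ≤ (cnt B K w : ℝ)) with hS
  have a3 : ∀ i ∈ range K, ∑ w, W w * ind (B (pt w (2 * i)) ∧
      c ≤ ((((range K).filter fun i => B (pt w (2 * i))).filter fun j => i ≤ j).card : ℝ)) ≤ S := by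
    intro i hi
    have hi' := mem_range.1 hi
    obtain ⟨k, hk⟩ : ∃ k, K = i + k := ⟨K - i, by omega⟩
    set Φ : (Fin (2 * k + 1) → Ω) → ℝ := fun w => ind (B (w 0) ∧ c ≤ (cnt B k w : ℝ)) with hΦ
    have s1 := path_seg μ hμ (2 * K) (altG z zh ζ) (2 * i) (2 * k) (by omega)
    have s2 := path_seg μ hμ (2 * K) (altG z zh ζ) 0 (2 * k) (by omega)
    rw [altG_period] at s1
    simp only [zero_add] at s2
    have e1 := e5_sum (fun (w : Fin (2 * K + 1) → Ω) (j : Fin (2 * k + 1)) =>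
      w ⟨2 * i + (j : ℕ), by omega⟩) (pathW μ (altG z zh ζ) (2 * K)) Φ
    have e2 := e5_sum (fun (w : Fin (2 * K + 1) → Ω) (j : Fin (2 * k + 1)) =>
      w ⟨(j : ℕ), by omega⟩) (pathW μ (altG z zh ζ) (2 * K)) Φ
    rw [s1] at e1
    rw [s2] at e2
    have e3 : ∑ w, W w * ind (B (pt w (2 * i)) ∧
      c ≤ ((((range K).filter fun i => B (pt w (2 * i))).filter fun j => i ≤ j).card : ℝ))
      = ∑ w, W w * Φ (fun j : Fin (2 * k + 1) => w ⟨2 * i + (j : ℕ), by omega⟩) := by
      refine Finset.sum_congr rfl fun w _ => ?_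
      rw [hΦ]
      congr 2
      rw [eq_iff_iff]
      have f1 : B (pt w (2 * i)) ↔ B (w ⟨2 * i + ((0 : Fin (2 * k + 1)) : ℕ), by omega⟩) := by
        rw [pt_eq w (2 * i) (by omega)]
        exact Iff.rfl
      have f2 : (((range K).filter fun i => B (pt w (2 * i))).filter fun j => i ≤ j).card
          = cnt B k (fun j : Fin (2 * k + 1) => w ⟨2 * i + (j : ℕ), by omega⟩) := by
        unfold cnt
        symm
        refine Finset.card_bij (fun j _ => i + j) ?_ ?_ ?_
        · intro j hj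
          rw [Finset.mem_filter, mem_range] at hj
          rw [Finset.mem_filter, Finset.mem_filter, mem_range]
          refine ⟨⟨by omega, ?_⟩, by omega⟩
          rw [pt_eq _ (2 * j) (by omega)] at hj
          rw [pt_eq _ (2 * (i + j)) (by omega)]
          have := hj.2
          have g : (⟨2 * (i + j), by omega⟩ : Fin (2 * K + 1)) = ⟨2 * i + 2 * j, by omega⟩ := by
            ext
            simp only []
            ring
          rw [g]
          exact this
        · intro j _ j' _ h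
          omega
        · intro j hj
          rw [Finset.mem_filter, Finset.mem_filter, mem_range] at hj
          refine ⟨j - i, ?_, by omega⟩
          rw [Finset.mem_filter, mem_range]
          refine ⟨by omega, ?_⟩
          rw [pt_eq _ (2 * (j - i)) (by omega)]
          have := hj.1.2
          rw [pt_eq _ (2 * j) (by omega)] at this
          have g : (⟨2 * i + 2 * (j - i), by omega⟩ : Fin (2 * K + 1)) = ⟨2 * j, by omega⟩ := by
            ext
            simp only []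
            omega
          show B (w ⟨2 * i + 2 * (j - i), by omega⟩)
          rw [g]
          exact this
      rw [f1, f2]
    rw [e3, hW]
    unfold walkW
    rw [← e1, e2]
    rw [hS, hW]
    unfold walkW
    refine Finset.sum_le_sum fun w _ => ?_
    refine mul_le_mul_of_nonneg_left ?_ (path_nn μ hμ _ _ w)
    rw [hΦ]
    apply ind_mono
    rintro ⟨b1, b2⟩
    refine ⟨b1, le_trans b2 ?_⟩
    have f3 : cnt B k (fun j : Fin (2 * k + 1) => w ⟨(j : ℕ), by omega⟩) ≤ cnt B K w := by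
      unfold cnt
      apply Finset.card_le_card
      intro j hj
      rw [Finset.mem_filter, mem_range] at hj ⊢
      refine ⟨by omega, ?_⟩
      rw [pt_eq _ (2 * j) (by omega)] at hj ⊢
      exact hj.2
    exact_mod_cast f3
  -- conclusion
  have a4 : ∑ w, W w * ((cnt B K w : ℝ) - c) ≤ K * S := by
    have b1 : ∀ w, W w * ((cnt B K w : ℝ) - c) ≤ ∑ i ∈ range K, W w * ind (B (pt w (2 * i)) ∧
      c ≤ ((((range K).filter fun i => B (pt w (2 * i))).filter fun j => i ≤ j).card : ℝ)) := by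
      intro w
      rw [← Finset.mul_sum]
      refine mul_le_mul_of_nonneg_left ?_ (hWn w)
      have b2 := sel_count ((range K).filter fun i => B (pt w (2 * i))) c hc0
      rw [Finset.filter_filter] at b2
      have b3 := card_ind (range K) (fun i => B (pt w (2 * i)) ∧
        c ≤ ((((range K).filter fun i => B (pt w (2 * i))).filter fun j => i ≤ j).card : ℝ))
      rw [← b3]
      refine le_trans b2 (le_of_eq (congrArg (fun n : ℕ => (n : ℝ)) (congrArg Finset.card ?_)))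
      ext i
      simp only [Finset.mem_filter]
    refine le_trans (Finset.sum_le_sum fun w _ => b1 w) ?_
    rw [Finset.sum_comm]
    refine le_trans (Finset.sum_le_sum a3) ?_
    rw [Finset.sum_const, card_range, nsmul_eq_mul]
  have a5 : ∑ w, W w * ((cnt B K w : ℝ) - c) = K * (∑ ω, μ ω * ind (B ω)) - c * ∑ ω, μ ω := by
    simp only [mul_sub]
    rw [Finset.sum_sub_distrib, a2, ← Finset.sum_mul, hM]
    ring
  rw [a5] at a4
  have a6 : (K : ℝ) * (d * ∑ ω, μ ω) ≤ K * ∑ ω, μ ω * ind (B ω) :=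
    mul_le_mul_of_nonneg_left hB hK'.le
  have a7 : (K : ℝ) * (d / 2 * ∑ ω, μ ω) ≤ K * S := by
    rw [hc] at a4
    linarith
  exact le_of_mul_le_mul_left a7 hK'

end sel

end Pool.Agent.Helper85.WF
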